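import Pool.Agent.H24.Lg2

set_option autoImplicit false

open Pool.Agent.H24.Lg

theorem Pool.Agent.Results.MP_34d506_co.No.result :
    ∃ (n : ℕ) (H : SimpleGraph (Fin n)), IsSEG H ∧ IsB1 H ∧ ¬ IsLGamma H :=
  ⟨56, Gᶜ, isSEG, isB1, notLG⟩
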